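import Mathlib

/-!
# The two classical conditions do not characterize Alexander polynomials of closed
3-manifolds with first Betti number one

For `H = ℤ × (ℤ/2)^3` and `Δ = T^2 + 6 T + 1` both conditions hold
(`Δ = T^2 Δ(T⁻¹)` and `Δ(1) = 8 = |Tors H|`), but no closed connected 3-manifold realizes
the pair `(H, Δ)`.
-/

open CategoryTheory AlgebraicTopology Simplicial Limits LaurentPolynomial

namespace Pool.Agent.Results.MP_31b0c0_gt.NotSufficient

/-! ## Definitions used in the statement -/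

/-- The first integral singular homology group of a space. -/
noncomputable def H1 (X : Type) [TopologicalSpace X] : ModuleCat.{0} ℤ :=
  ((singularHomologyFunctor (ModuleCat.{0} ℤ) 1).obj (ModuleCat.of ℤ ℤ)).obj (TopCat.of X)

/-- The map induced on first homology by a continuous map. -/
noncomputable def H1map {X Y : Type} [TopologicalSpace X] [TopologicalSpace Y] (f : C(X, Y)) :
    H1 X →ₗ[ℤ] H1 Y :=
  (((singularHomologyFunctor (ModuleCat.{0} ℤ) 1).obj (ModuleCat.of ℤ ℤ)).map
    (TopCat.ofHom f)).hom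

lemma H1map_id (X : Type) [TopologicalSpace X] : H1map (ContinuousMap.id X) = LinearMap.id := by
  unfold H1map
  rw [TopCat.ofHom_id, CategoryTheory.Functor.map_id]
  rfl

lemma H1map_comp {X Y Z : Type} [TopologicalSpace X] [TopologicalSpace Y] [TopologicalSpace Z]
    (g : C(Y, Z)) (f : C(X, Y)) : H1map (g.comp f) = (H1map g).comp (H1map f) := by
  unfold H1map
  rw [TopCat.ofHom_comp, CategoryTheory.Functor.map_comp]
  rfl

/-- An infinite cyclic covering of `M`: a path connected space `E` with a covering map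
`p : E → M` and a deck transformation `t` whose powers act simply transitively on the fibres. -/
structure InfiniteCyclicCover (M : Type) [TopologicalSpace M] where
  /-- total space -/
  E : Type
  /-- topology of the total space -/
  topE : TopologicalSpace E
  /-- the total space is path connected -/
  connE : PathConnectedSpace E
  /-- the covering map -/
  p : C(E, M)
  isCovering : IsCoveringMap p
  surj : Function.Surjective p
  /-- generator of the deck group -/
  t : E ≃ₜ E
  deck : ∀ x, p (t x) = p x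
  simplyTransitive : ∀ x y, p x = p y → ∃! n : ℤ, (t ^ n) x = y

attribute [instance] InfiniteCyclicCover.topE InfiniteCyclicCover.connE

section Module

variable {M : Type} [TopologicalSpace M] (C : InfiniteCyclicCover M)

/-- The Alexander module of `M`: the first homology of the infinite cyclic covering. -/
def AlexanderModule : Type := H1 C.E

/-- its group structure: the one of first homology -/
noncomputable instance instAlexGroup : AddCommGroup (AlexanderModule C) :=
  (inferInstance : AddCommGroup (H1 C.E))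

/-- The `n`-th power of the deck transformation, acting on first homology. -/
noncomputable def deckPow (n : ℤ) : AlexanderModule C →+ AlexanderModule C :=
  (H1map ((C.t ^ n : C.E ≃ₜ C.E) : C(C.E, C.E))).toAddMonoidHom

/-- The action of a Laurent polynomial: `(Σ a_n T^n) x = Σ a_n t^n(x)`, where `t` is the deck
transformation. -/
noncomputable def laurentSMul (r : ℤ[T;T⁻¹]) (x : AlexanderModule C) : AlexanderModule C :=
  r.coeff.sum fun n a => a • deckPow C n x

/-- The powers of the deck transformation as a homomorphism. -/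
noncomputable def deckHom : Multiplicative ℤ →* Module.End ℤ (H1 C.E) where
  toFun n := H1map ((C.t ^ n.toAdd : C.E ≃ₜ C.E) : C(C.E, C.E))
  map_one' := H1map_id C.E
  map_mul' m n := by
    have : ((C.t ^ (m * n).toAdd : C.E ≃ₜ C.E) : C(C.E, C.E)) =
        ((C.t ^ m.toAdd : C.E ≃ₜ C.E) : C(C.E, C.E)).comp
          ((C.t ^ n.toAdd : C.E ≃ₜ C.E) : C(C.E, C.E)) := by
      rw [toAdd_mul, zpow_add]
      rfl
    rw [this, H1map_comp]
    rfl

/-- The action of Laurent polynomials as a ring homomorphism. -/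
noncomputable def laurentAction : ℤ[T;T⁻¹] →ₐ[ℤ] Module.End ℤ (H1 C.E) :=
  AddMonoidAlgebra.lift ℤ (Module.End ℤ (H1 C.E)) ℤ (deckHom C)

lemma laurentSMul_eq (r : ℤ[T;T⁻¹]) (x : AlexanderModule C) :
    laurentSMul C r x = laurentAction C r x := by
  have h : laurentAction C r = r.coeff.sum fun n a => a • deckHom C (Multiplicative.ofAdd n) :=
    AddMonoidAlgebra.lift_apply _ _
  have h2 : laurentAction C r x =
      r.coeff.sum fun n a => (a • deckHom C (Multiplicative.ofAdd n)) x := by
    rw [h]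
    exact LinearMap.sum_apply _ _ _
  exact h2.symm

lemma laurent_one (x : AlexanderModule C) : laurentSMul C 1 x = x := by
  rw [laurentSMul_eq, map_one]
  rfl

lemma laurent_mul (r s : ℤ[T;T⁻¹]) (x : AlexanderModule C) :
    laurentSMul C (r * s) x = laurentSMul C r (laurentSMul C s x) := by
  rw [laurentSMul_eq, laurentSMul_eq, laurentSMul_eq, map_mul]
  rfl

lemma laurent_zero_right (r : ℤ[T;T⁻¹]) : laurentSMul C r 0 = 0 := by
  rw [laurentSMul_eq]
  exact map_zero _

lemma laurent_add_right (r : ℤ[T;T⁻¹]) (x y : AlexanderModule C) :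
    laurentSMul C r (x + y) = laurentSMul C r x + laurentSMul C r y := by
  rw [laurentSMul_eq, laurentSMul_eq, laurentSMul_eq]
  exact map_add _ _ _

lemma laurent_add_left (r s : ℤ[T;T⁻¹]) (x : AlexanderModule C) :
    laurentSMul C (r + s) x = laurentSMul C r x + laurentSMul C s x := by
  rw [laurentSMul_eq, laurentSMul_eq, laurentSMul_eq, map_add]
  rfl

lemma laurent_zero_left (x : AlexanderModule C) : laurentSMul C 0 x = 0 := by
  rw [laurentSMul_eq, map_zero]
  rfl

/-- `H_1(E)` is a module over the Laurent polynomials, `T` acting by the deck transformation. -/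
noncomputable instance instAlexModule : Module ℤ[T;T⁻¹] (AlexanderModule C) where
  smul := laurentSMul C
  one_smul := laurent_one C
  mul_smul := laurent_mul C
  smul_zero := laurent_zero_right C
  smul_add := laurent_add_right C
  add_smul := laurent_add_left C
  zero_smul := laurent_zero_left C

end Module

/-- The elementary ideal (zeroth Fitting ideal) computed from generators `g`. -/
def elementaryIdeal {R N : Type} [CommRing R] [AddCommGroup N] [Module R N] {n : ℕ}
    (g : Fin n → N) : Ideal R :=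
  Ideal.span {d | ∃ A : Matrix (Fin n) (Fin n) R, (∀ i, ∑ j, A i j • g j = 0) ∧ A.det = d}

/-- `Δ` is an order of the module `N`: for some finite system of generators, `Δ` generates the
smallest principal ideal containing the first elementary ideal. -/
def IsOrderOf {R : Type} [CommRing R] (Δ : R) (N : Type) [AddCommGroup N] [Module R N] : Prop :=
  ∃ (n : ℕ) (g : Fin n → N), Submodule.span R (Set.range g) = ⊤ ∧
    elementaryIdeal (R := R) g ≤ Ideal.span {Δ} ∧
      ∀ d : R, elementaryIdeal (R := R) g ≤ Ideal.span {d} → Ideal.span {Δ} ≤ Ideal.span {d}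

/-- The pair `(H, Δ)` is realized by `M`. -/
def Realizes (M : Type) [TopologicalSpace M] (H : Type) [AddCommGroup H] (Δ : ℤ[T;T⁻¹]) : Prop :=
  Nonempty (H ≃+ H1 M) ∧ ∃ C : InfiniteCyclicCover M, IsOrderOf Δ (AlexanderModule C)

/-- `H` is finitely generated and `H` modulo torsion is infinite cyclic. -/
def IsRankOneFG (H : Type) [AddCommGroup H] : Prop :=
  AddGroup.FG H ∧ Nonempty ((H ⧸ AddCommGroup.torsion H) ≃+ ℤ)

/-- The value `Δ(1)`. -/
noncomputable def evalOne : ℤ[T;T⁻¹] →+* ℤ := LaurentPolynomial.eval₂ (RingHom.id ℤ) 1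

/-- The two conditions of the question: `Δ = T^k Δ(T⁻¹)` for some even integer `k`, and
`Δ(1) = ± |Tors H|`. -/
def Conditions (H : Type) [AddCommGroup H] (Δ : ℤ[T;T⁻¹]) : Prop :=
  (∃ k : ℤ, Even k ∧ Δ = T k * LaurentPolynomial.invert Δ) ∧
    (evalOne Δ = Nat.card (AddCommGroup.torsion H) ∨
      evalOne Δ = -Nat.card (AddCommGroup.torsion H))

/-! ## Algebra -/

/-- augmentation -/
noncomputable def aug : ℤ[T;T⁻¹] →+* ℤ := evalOne

lemma aug_T (n : ℤ) : aug (T n) = 1 := by simp [aug, evalOne, eval₂_T]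

lemma aug_C (a : ℤ) : aug (C a) = a := by simp [aug, evalOne]

lemma T_sub_one_dvd (n : ℤ) : ∃ s : ℤ[T;T⁻¹], T n = 1 + (T 1 - 1) * s := by
  have key : ∀ m : ℕ, ∃ s : ℤ[T;T⁻¹], T (m : ℤ) = 1 + (T 1 - 1) * s := by
    intro m
    induction m with
    | zero => exact ⟨0, by simp⟩
    | succ m ih =>
      obtain ⟨s, hs⟩ := ih
      refine ⟨T 1 * s + 1, ?_⟩
      push_cast
      rw [T_add, hs]
      ring
  obtain ⟨m, rfl | rfl⟩ := n.eq_nat_or_neg
  · exact key m
  · obtain ⟨s, hs⟩ := key m
    refine ⟨- T (-(m : ℤ)) * s, ?_⟩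
    have h1 : (T (m : ℤ) * T (-(m : ℤ)) : ℤ[T;T⁻¹]) = 1 := by rw [← T_add]; simp
    have h2 : (T (-(m : ℤ)) : ℤ[T;T⁻¹]) * T (m : ℤ) = 1 := by rw [mul_comm]; exact h1
    rw [hs] at h2
    linear_combination h2

lemma aug_decomp (r : ℤ[T;T⁻¹]) : ∃ s, r = C (aug r) + (T 1 - 1) * s := by
  induction r using LaurentPolynomial.induction_on' with
  | add p q hp hq =>
    obtain ⟨s, hs⟩ := hp
    obtain ⟨u, hu⟩ := hq
    refine ⟨s + u, ?_⟩
    rw [map_add, map_add]
    linear_combination hs + hu
  | C_mul_T n a =>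
    obtain ⟨s, hs⟩ := T_sub_one_dvd n
    refine ⟨C a * s, ?_⟩
    rw [map_mul, aug_T, aug_C, mul_one]
    rw [hs]
    ring

/-- the counterexample polynomial -/
noncomputable def delta : ℤ[T;T⁻¹] := T 2 + 6 * T 1 + 1

lemma aug_delta : aug delta = 8 := by
  unfold delta
  rw [map_add, map_add, map_mul, aug_T, aug_T, map_one]
  have : aug (6 : ℤ[T;T⁻¹]) = 6 := by
    have := map_ofNat aug 6
    exact this
  rw [this]
  norm_num

/-- the unit `1 + X` -/
noncomputable def uX : (PowerSeries (ZMod 2))ˣ :=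
  (PowerSeries.isUnit_iff_constantCoeff.mpr (by simp : IsUnit (PowerSeries.constantCoeff (R := ZMod 2) (1 + PowerSeries.X)))).unit

lemma uX_val : (uX : PowerSeries (ZMod 2)) = 1 + PowerSeries.X := rfl

/-- reduction mod 2 with `t = 1 + X` -/
noncomputable def theta : ℤ[T;T⁻¹] →+* PowerSeries (ZMod 2) := eval₂ (Int.castRingHom _) uX

lemma theta_T_one : theta (T 1) = 1 + PowerSeries.X := by
  simp [theta, eval₂_T, uX_val]

lemma theta_C (a : ℤ) : theta (C a) = (a : PowerSeries (ZMod 2)) := by
  simp [theta]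

lemma two_eq_zero : (2 : PowerSeries (ZMod 2)) = 0 := by
  have : (2 : PowerSeries (ZMod 2)) = PowerSeries.C (2 : ZMod 2) :=
    (map_ofNat (PowerSeries.C (R := ZMod 2)) 2).symm
  rw [this]
  have h2 : (2 : ZMod 2) = 0 := rfl
  rw [h2, map_zero]

lemma theta_delta : theta delta = PowerSeries.X ^ 2 := by
  unfold delta
  have h2 : (T 2 : ℤ[T;T⁻¹]) = T 1 * T 1 := by rw [← T_add]; norm_num
  have h6 : theta (6 : ℤ[T;T⁻¹]) = 6 := map_ofNat theta 6
  rw [h2, map_add, map_add, map_mul, map_mul, theta_T_one, map_one, h6]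
  linear_combination (4 + 4 * (PowerSeries.X : PowerSeries (ZMod 2))) * two_eq_zero

lemma const_theta (r : ℤ[T;T⁻¹]) :
    PowerSeries.constantCoeff (theta r) = (aug r : ZMod 2) := by
  obtain ⟨s, hs⟩ := aug_decomp r
  conv_lhs => rw [hs]
  rw [map_add, map_add, map_mul, map_mul, theta_C, map_sub, theta_T_one]
  simp

section main

variable {N : Type} [AddCommGroup N] [Module ℤ[T;T⁻¹] N]

lemma pi_smul {V : Type} [AddCommGroup V] [Module (ZMod 2) V] (π : N →+ V)
    (hk : ∀ x, π ((T 1 - 1 : ℤ[T;T⁻¹]) • x) = 0) (r : ℤ[T;T⁻¹]) (x : N) :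
    π (r • x) = (aug r : ZMod 2) • π x := by
  obtain ⟨s, hs⟩ := aug_decomp r
  conv_lhs => rw [hs]
  rw [add_smul, mul_smul, map_add, hk, add_zero]
  have : (C (aug r) : ℤ[T;T⁻¹]) • x = (aug r) • x := by
    have : (C (aug r) : ℤ[T;T⁻¹]) = ((aug r : ℤ) : ℤ[T;T⁻¹]) := by
      simp
    rw [this, Int.cast_smul_eq_zsmul]
  rw [this, map_zsmul, Int.cast_smul_eq_zsmul]

/-- adapted basis -/
lemma exists_adapted {n : ℕ} (L : (Fin n → ZMod 2) →ₗ[ZMod 2] (Fin 3 → ZMod 2))
    (hL : Function.Surjective L) :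
    ∃ (k : ℕ) (e : Fin n ≃ Fin 3 ⊕ Fin k) (b : Module.Basis (Fin n) (ZMod 2) (Fin n → ZMod 2)),
      ∀ i, (e i).isRight → L (b i) = 0 := by
  obtain ⟨K', hK'⟩ := Submodule.exists_isCompl (LinearMap.ker L)
  have hfin : Module.finrank (ZMod 2) K' = 3 := by
    have h1 := LinearMap.finrank_range_add_finrank_ker L
    have h2 := Submodule.finrank_add_eq_of_isCompl hK'
    rw [LinearMap.range_eq_top.mpr hL] at h1
    rw [finrank_top] at h1
    simp at h1 h2
    omega
  let b1 := Module.finBasisOfFinrankEq (ZMod 2) K' hfin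
  let b2 := Module.finBasis (ZMod 2) (LinearMap.ker L)
  let b0 := (b1.prod b2).map (Submodule.prodEquivOfIsCompl K' (LinearMap.ker L) hK'.symm)
  let e0 := b0.indexEquiv (Pi.basisFun (ZMod 2) (Fin n))
  refine ⟨_, e0.symm, b0.reindex e0, ?_⟩
  intro i hi
  rw [Module.Basis.reindex_apply]
  rcases h : e0.symm i with a | a
  · rw [h] at hi; simp at hi
  · simp [b0]

theorem obstruction {n : ℕ} (g : Fin n → N) (hg : Submodule.span ℤ[T;T⁻¹] (Set.range g) = ⊤)
    (π : N →+ (Fin 3 → ZMod 2)) (hπ : Function.Surjective π)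
    (hk : ∀ x, π x = 0 ↔ ∃ y, x = (T 1 - 1 : ℤ[T;T⁻¹]) • y)
    (hE : elementaryIdeal (R := ℤ[T;T⁻¹]) g ≤ Ideal.span {delta}) : False := by
  have hk0 : ∀ x, π ((T 1 - 1 : ℤ[T;T⁻¹]) • x) = 0 := fun x => (hk _).mpr ⟨x, rfl⟩
  have hgen : ∀ x : N, ∃ c : Fin n → ℤ[T;T⁻¹], ∑ j, c j • g j = x := by
    intro x
    have : x ∈ Submodule.span ℤ[T;T⁻¹] (Set.range g) := by rw [hg]; trivial
    exact (Submodule.mem_span_range_iff_exists_fun _).mp this
  let L : (Fin n → ZMod 2) →ₗ[ZMod 2] (Fin 3 → ZMod 2) :=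
    Fintype.linearCombination (ZMod 2) (fun j => π (g j))
  have hLapp : ∀ c : Fin n → ZMod 2, L c = ∑ j, c j • π (g j) := fun c => by
    simp [L, Fintype.linearCombination_apply]
  have hLs : Function.Surjective L := by
    intro y
    obtain ⟨x, rfl⟩ := hπ y
    obtain ⟨c, rfl⟩ := hgen x
    refine ⟨fun j => (aug (c j) : ZMod 2), ?_⟩
    rw [hLapp, map_sum]
    exact Finset.sum_congr rfl fun j _ => (pi_smul π hk0 _ _).symm
  obtain ⟨k, e, b, hb⟩ := exists_adapted L hLs
  let bt : Matrix (Fin n) (Fin n) ℤ := fun i j => ((b i j).val : ℤ)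
  let D : Fin n → ℤ := fun i => if (e i).isLeft then 2 else 1
  have hbt : ∀ i j, ((bt i j : ℤ) : ZMod 2) = b i j := by
    intro i j
    simp [bt]
  have hrow : ∀ i, ∃ d : Fin n → ℤ[T;T⁻¹],
      ∑ j, (C (D i * bt i j) - (T 1 - 1) * d j) • g j = 0 := by
    intro i
    have h0 : π (∑ j, (C (D i * bt i j) : ℤ[T;T⁻¹]) • g j) = 0 := by
      rw [map_sum]
      have : ∀ j, π ((C (D i * bt i j) : ℤ[T;T⁻¹]) • g j) = (D i : ZMod 2) • (b i j • π (g j)) := by
        intro j
        rw [pi_smul π hk0, aug_C, smul_smul]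
        push_cast
        rw [hbt]
      rw [Finset.sum_congr rfl fun j _ => this j, ← Finset.smul_sum, ← hLapp]
      rcases h : e i with a | a
      · have : (D i : ZMod 2) = 0 := by
          simp only [D, h, Sum.isLeft_inl, if_true]
          rfl
        rw [this, zero_smul]
      · rw [hb i (by rw [h]; rfl), smul_zero]
    obtain ⟨y, hy⟩ := (hk _).mp h0
    obtain ⟨d, hd⟩ := hgen y
    refine ⟨d, ?_⟩
    have h1 : ∀ j, (C (D i * bt i j) - (T 1 - 1) * d j) • g j =
        (C (D i * bt i j) : ℤ[T;T⁻¹]) • g j - (T 1 - 1 : ℤ[T;T⁻¹]) • (d j • g j) := fun j => by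
      rw [sub_smul, mul_smul]
    rw [Finset.sum_congr rfl fun j _ => h1 j, Finset.sum_sub_distrib, ← Finset.smul_sum, hy, hd,
      sub_self]
  choose d hd using hrow
  let R : Matrix (Fin n) (Fin n) ℤ[T;T⁻¹] := fun i j => C (D i * bt i j) - (T 1 - 1) * d i j
  have hR : R.det ∈ Ideal.span {delta} := hE (Ideal.subset_span ⟨R, hd, rfl⟩)
  obtain ⟨q, hq⟩ := Ideal.mem_span_singleton.mp hR
  -- evaluation at one
  have h1 : aug R.det = 8 * bt.det := by
    rw [RingHom.map_det]
    have : aug.mapMatrix R = Matrix.of fun i j => D i * bt i j := by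
      ext i j
      change aug (C (D i * bt i j) - (T 1 - 1) * d i j) = D i * bt i j
      rw [map_sub, aug_C, map_mul, map_sub, aug_T, map_one, sub_self, zero_mul, sub_zero]
    rw [this, Matrix.det_mul_column]
    congr 1
    have : ∏ i, D i = ∏ x : Fin 3 ⊕ Fin k, (if x.isLeft then (2 : ℤ) else 1) :=
      Equiv.prod_comp e (fun x : Fin 3 ⊕ Fin k => (if x.isLeft then (2 : ℤ) else 1))
    rw [this, Fintype.prod_sum_type]
    simp
  have h2 : aug q = bt.det := by
    rw [hq, map_mul, aug_delta] at h1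
    linarith
  -- reduction
  let D' : Fin n → PowerSeries (ZMod 2) := fun i => if (e i).isLeft then PowerSeries.X else 1
  let R' : Matrix (Fin n) (Fin n) (PowerSeries (ZMod 2)) := fun i j =>
    if (e i).isLeft then -theta (d i j) else theta (R i j)
  have h3 : theta R.det = PowerSeries.X ^ 3 * R'.det := by
    rw [RingHom.map_det]
    have : theta.mapMatrix R = Matrix.of fun i j => D' i * R' i j := by
      ext1 i j
      simp only [RingHom.mapMatrix_apply, Matrix.map_apply, Matrix.of_apply, D', R']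
      by_cases h : (e i).isLeft
      · simp only [h, if_true]
        have hD : D i = 2 := by simp only [D, h, if_true]
        simp only [R, hD, map_sub, map_mul, theta_T_one, map_one, theta_C]
        push_cast
        linear_combination (bt i j : PowerSeries (ZMod 2)) * two_eq_zero
      · simp only [h]
        simp
    rw [this, Matrix.det_mul_column]
    congr 1
    have : ∏ i, D' i = ∏ x : Fin 3 ⊕ Fin k,
        (if x.isLeft then (PowerSeries.X : PowerSeries (ZMod 2)) else 1) :=
      Equiv.prod_comp e (fun x : Fin 3 ⊕ Fin k =>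
        (if x.isLeft then (PowerSeries.X : PowerSeries (ZMod 2)) else 1))
    rw [this, Fintype.prod_sum_type]
    simp
  rw [hq, map_mul, theta_delta] at h3
  have h4 : theta q = PowerSeries.X * R'.det := by
    have hX : (PowerSeries.X ^ 2 : PowerSeries (ZMod 2)) ≠ 0 := pow_ne_zero _ PowerSeries.X_ne_zero
    apply mul_left_cancel₀ hX
    rw [h3]
    ring
  have h5 : ((bt.det : ℤ) : ZMod 2) = 0 := by
    rw [← h2, ← const_theta, h4]
    simp
  have h6 : ((bt.det : ℤ) : ZMod 2) = (Matrix.of fun i j => b i j).det := by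
    have := RingHom.map_det (Int.castRingHom (ZMod 2)) bt
    simp only [Int.coe_castRingHom] at this
    rw [this]
    congr 1
    ext i j
    simp [hbt]
  have h7 : IsUnit (Matrix.of fun i j => b i j).det := by
    have h8 := (Pi.basisFun (ZMod 2) (Fin n)).isUnit_det b
    rw [Module.Basis.det_apply] at h8
    have h9 : ((Pi.basisFun (ZMod 2) (Fin n)).toMatrix b) = (Matrix.of fun i j => b i j).transpose := by
      ext i j
      simp [Module.Basis.toMatrix_apply]
    rw [h9, Matrix.det_transpose] at h8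
    exact h8
  rw [← h6, h5] at h7
  exact not_isUnit_zero h7

end main

/-! ## Topology -/

/-! ### Free abelian groups on sets with a free `Z`-action -/

section Sets

variable {S Q : Type}

lemma mapDomain_injective_aux (τ : S → S) (hinj : Function.Injective τ)
    (hfree : ∀ (k : ℕ) (x : S), 0 < k → τ^[k] x ≠ x) (c : S →₀ ℤ)
    (hc : Finsupp.mapDomain τ c = c) : c = 0 := by
  by_contra hne
  obtain ⟨x, hx⟩ := Finsupp.support_nonempty_iff.mpr hne
  have step : ∀ y, c (τ y) = c y := by
    intro y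
    conv_lhs => rw [← hc]
    exact Finsupp.mapDomain_apply hinj c y
  have hiter : ∀ k : ℕ, c (τ^[k] x) = c x := by
    intro k
    induction k with
    | zero => rfl
    | succ k ih => rw [Function.iterate_succ_apply', step, ih]
  have hinf : Function.Injective fun k : ℕ => τ^[k] x := by
    intro a b hab
    by_contra hne
    rcases lt_or_gt_of_ne hne with h | h
    · obtain ⟨d, rfl⟩ := Nat.exists_eq_add_of_lt h
      have h1 : τ^[a] x = τ^[a] (τ^[d + 1] x) := by
        rw [← Function.iterate_add_apply, ← add_assoc]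
        exact hab
      exact hfree (d + 1) x (Nat.succ_pos _) ((hinj.iterate a) h1).symm
    · obtain ⟨d, rfl⟩ := Nat.exists_eq_add_of_lt h
      have h1 : τ^[b] x = τ^[b] (τ^[d + 1] x) := by
        rw [← Function.iterate_add_apply, ← add_assoc]
        exact hab.symm
      exact hfree (d + 1) x (Nat.succ_pos _) ((hinj.iterate b) h1).symm
  have hsub : Set.range (fun k : ℕ => τ^[k] x) ⊆ c.support := by
    rintro _ ⟨k, rfl⟩
    simp only [Finset.mem_coe, Finsupp.mem_support_iff]
    rw [hiter k]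
    exact Finsupp.mem_support_iff.mp hx
  exact (Set.infinite_range_of_injective hinf) (c.support.finite_toSet.subset hsub)

lemma exact_aux (τ : S → S) (q : S → Q) (hq : Function.Surjective q)
    (hfib : ∀ x y, q x = q y → ∃ k : ℕ, τ^[k] x = y ∨ τ^[k] y = x) (c : S →₀ ℤ)
    (hc : Finsupp.mapDomain q c = 0) : ∃ d : S →₀ ℤ, c = Finsupp.mapDomain τ d - d := by
  let r : Q → S := Function.surjInv hq
  have hr : ∀ y, q (r y) = y := Function.surjInv_eq hq
  -- the image of `τ - 1`
  let I : AddSubgroup (S →₀ ℤ) :=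
    (Finsupp.mapDomain.addMonoidHom τ - AddMonoidHom.id (S →₀ ℤ)).range
  have hIiter : ∀ (k : ℕ) (x : S) (a : ℤ), Finsupp.single (τ^[k] x) a - Finsupp.single x a ∈ I := by
    intro k
    induction k with
    | zero => intro x a; simp [I.zero_mem]
    | succ k ih =>
      intro x a
      have h1 : Finsupp.single (τ^[k + 1] x) a - Finsupp.single (τ^[k] x) a ∈ I := by
        refine ⟨Finsupp.single (τ^[k] x) a, ?_⟩
        simp [Finsupp.mapDomain_single, Function.iterate_succ_apply']
      have := I.add_mem h1 (ih x a)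
      simpa using this
  have hI : ∀ (x y : S) (a : ℤ), q x = q y → Finsupp.single x a - Finsupp.single y a ∈ I := by
    intro x y a h
    obtain ⟨k, h | h⟩ := hfib x y h
    · have := I.neg_mem (hIiter k x a)
      rw [h] at this
      simpa using this
    · have := hIiter k y a
      rw [h] at this
      exact this
  have key : ∀ c : S →₀ ℤ, c - Finsupp.mapDomain r (Finsupp.mapDomain q c) ∈ I := by
    intro c
    induction c using Finsupp.induction_linear with
    | zero => simp [I.zero_mem]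
    | add f g hf hg =>
      rw [Finsupp.mapDomain_add, Finsupp.mapDomain_add]
      have := I.add_mem hf hg
      convert this using 1
      abel
    | single x a =>
      rw [Finsupp.mapDomain_single, Finsupp.mapDomain_single]
      exact hI _ _ _ (hr _).symm
  have h := key c
  rw [hc, Finsupp.mapDomain_zero, sub_zero] at h
  obtain ⟨d, hd⟩ := h
  exact ⟨d, by rw [← hd]; rfl⟩

end Sets

/-! ### Chains as finitely supported functions -/

/-- coefficients -/
noncomputable abbrev R0 : ModuleCat.{0} ℤ := ModuleCat.of ℤ ℤ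

section Chains

variable (X : SSet.{0}) (n : ℕ)

/-- from chains to finitely supported functions -/
noncomputable def toF : (X.chainComplex R0).X n ⟶ ModuleCat.of ℤ (X _⦋n⦌ →₀ ℤ) :=
  Cofan.IsColimit.desc (X.isColimitChainComplexXCofan R0 n)
    (fun x => ModuleCat.ofHom (Finsupp.lsingle (R := ℤ) (M := ℤ) x))

/-- the chain given by a simplex -/
noncomputable def iotaE (x : X _⦋n⦌) : ((X.chainComplex R0).X n : ModuleCat.{0} ℤ) :=
  (X.ιChainComplex (R := R0) x).hom (1 : ℤ)

/-- from finitely supported functions to chains -/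
noncomputable def ofF : ModuleCat.of ℤ (X _⦋n⦌ →₀ ℤ) ⟶ (X.chainComplex R0).X n :=
  ModuleCat.ofHom (Finsupp.linearCombination ℤ (iotaE X n))

lemma ι_toF (x : X _⦋n⦌) :
    X.ιChainComplex (R := R0) x ≫ toF X n = ModuleCat.ofHom (Finsupp.lsingle (R := ℤ) (M := ℤ) x) :=
  Cofan.IsColimit.fac _ _ _

lemma toF_iotaE (x : X _⦋n⦌) : (toF X n).hom (iotaE X n x) = Finsupp.single x 1 := by
  have h := congrArg (fun g => (ModuleCat.Hom.hom g) (1 : ℤ)) (ι_toF X n x)
  unfold iotaE
  simpa using h

lemma ofF_single (x : X _⦋n⦌) (a : ℤ) :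
    (ofF X n).hom (Finsupp.single x a) = (X.ιChainComplex (R := R0) x).hom a := by
  refine (Finsupp.linearCombination_single (v := iotaE X n) ℤ a x).trans ?_
  unfold iotaE
  rw [← LinearMap.map_smul]
  congr 1
  exact mul_one a

lemma toF_ofF : toF X n ≫ ofF X n = 𝟙 _ := by
  apply SSet.chainComplex_hom_ext
  intro x
  rw [← Category.assoc, ι_toF]
  apply ModuleCat.hom_ext
  apply LinearMap.ext
  intro a
  rw [Category.comp_id]
  exact ofF_single X n x a

lemma toF_iota (x : X _⦋n⦌) (a : ℤ) :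
    (toF X n).hom ((X.ιChainComplex (R := R0) x).hom a) = Finsupp.single x a := by
  have h := congrArg (fun g => (ModuleCat.Hom.hom g) (a : ℤ)) (ι_toF X n x)
  simpa using h

lemma ofF_toF : ofF X n ≫ toF X n = 𝟙 _ := by
  apply ModuleCat.hom_ext
  apply Finsupp.lhom_ext
  intro x a
  have h : (toF X n).hom ((ofF X n).hom (Finsupp.single x a)) = Finsupp.single x a := by
    rw [ofF_single, toF_iota]
  exact h

/-- chains are finitely supported functions -/
noncomputable def isoF : (X.chainComplex R0).X n ≅ ModuleCat.of ℤ (X _⦋n⦌ →₀ ℤ) where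
  hom := toF X n
  inv := ofF X n
  hom_inv_id := toF_ofF X n
  inv_hom_id := ofF_toF X n

variable {X} {Y : SSet.{0}} (f : X ⟶ Y)

lemma toF_nat (c : (X.chainComplex R0).X n) :
    (toF Y n).hom (((SSet.chainComplexMap f R0).f n).hom c) =
      Finsupp.mapDomain (f.app (.op ⦋n⦌)) ((toF X n).hom c) := by
  have h : (SSet.chainComplexMap f R0).f n ≫ toF Y n =
      toF X n ≫ ModuleCat.ofHom (Finsupp.lmapDomain ℤ ℤ (f.app (.op ⦋n⦌))) := by
    apply SSet.chainComplex_hom_ext
    intro x
    rw [← Category.assoc, SSet.ι_chainComplexMap_f, ι_toF, ← Category.assoc, ι_toF]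
    ext
    simp
  have h2 := congrArg (fun g => (ModuleCat.Hom.hom g) c) h
  simpa using h2

end Chains

/-! ### The short exact sequence of an infinite cyclic covering of simplicial sets -/

section SES

variable {X Y : SSet.{0}} (τ : X ⟶ X) (q : X ⟶ Y) (hτ : τ ≫ q = q)

/-- the short complex `C(X) → C(X) → C(Y)`, the first map being `τ - 1` -/
noncomputable def SC : ShortComplex (ChainComplex (ModuleCat.{0} ℤ) ℕ) :=
  ShortComplex.mk (SSet.chainComplexMap τ R0 - 𝟙 (X.chainComplex R0)) (SSet.chainComplexMap q R0) (by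
    rw [Preadditive.sub_comp, Category.id_comp, sub_eq_zero]
    change ((SSet.chainComplexFunctor _).obj R0).map τ ≫ ((SSet.chainComplexFunctor _).obj R0).map q = _
    rw [← Functor.map_comp, hτ])

lemma toF_injective (Z : SSet.{0}) (n : ℕ) : Function.Injective (toF Z n).hom := by
  intro a b h
  have h1 : ∀ c, (ofF Z n).hom ((toF Z n).hom c) = c := by
    intro c
    have := congrArg (fun g => (ModuleCat.Hom.hom g) c) (toF_ofF Z n)
    simpa using this
  rw [← h1 a, ← h1 b, h]

lemma toF_ofF_apply (Z : SSet.{0}) (n : ℕ) (c : Z _⦋n⦌ →₀ ℤ) :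
    (toF Z n).hom ((ofF Z n).hom c) = c := by
  have := congrArg (fun g => (ModuleCat.Hom.hom g) c) (ofF_toF Z n)
  simpa using this

section
variable {τ q}

lemma chain_exact {n : ℕ} (hsurj : Function.Surjective (q.app (.op ⦋n⦌)))
    (hfib : ∀ (x y : X _⦋n⦌), q.app (.op ⦋n⦌) x = q.app (.op ⦋n⦌) y →
      ∃ k : ℕ, (τ.app (.op ⦋n⦌))^[k] x = y ∨ (τ.app (.op ⦋n⦌))^[k] y = x)
    (c : (X.chainComplex R0).X n) (hc : ((SSet.chainComplexMap q R0).f n).hom c = 0) :
    ∃ d : (X.chainComplex R0).X n, ((SSet.chainComplexMap τ R0).f n).hom d - d = c := by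
  have h1 : Finsupp.mapDomain (q.app (.op ⦋n⦌)) ((toF X n).hom c) = 0 := by
    rw [← toF_nat, hc, map_zero]
  obtain ⟨d, hd⟩ := exact_aux _ _ hsurj hfib _ h1
  refine ⟨(ofF X n).hom d, ?_⟩
  apply toF_injective X n
  rw [map_sub, toF_nat, toF_ofF_apply, hd]

lemma chain_injective {n : ℕ} (hinj : Function.Injective (τ.app (.op ⦋n⦌)))
    (hfree : ∀ (k : ℕ) (x : X _⦋n⦌), 0 < k → (τ.app (.op ⦋n⦌))^[k] x ≠ x)
    (c : (X.chainComplex R0).X n) (hc : ((SSet.chainComplexMap τ R0).f n).hom c - c = 0) :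
    c = 0 := by
  apply toF_injective X n
  rw [map_zero]
  apply mapDomain_injective_aux _ hinj hfree
  rw [← toF_nat, sub_eq_zero.mp hc]

lemma chain_surjective {n : ℕ} (hsurj : Function.Surjective (q.app (.op ⦋n⦌)))
    (c : (Y.chainComplex R0).X n) :
    ∃ d : (X.chainComplex R0).X n, ((SSet.chainComplexMap q R0).f n).hom d = c := by
  obtain ⟨d, hd⟩ := Finsupp.mapDomain_surjective (M := ℤ) hsurj ((toF Y n).hom c)
  refine ⟨(ofF X n).hom d, ?_⟩
  apply toF_injective Y n
  rw [toF_nat, toF_ofF_apply, hd]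

end

theorem shortExact
    (hinj : ∀ n : ℕ, Function.Injective (τ.app (.op ⦋n⦌)))
    (hfree : ∀ (n k : ℕ) (x : X _⦋n⦌), 0 < k → (τ.app (.op ⦋n⦌))^[k] x ≠ x)
    (hsurj : ∀ n : ℕ, Function.Surjective (q.app (.op ⦋n⦌)))
    (hfib : ∀ (n : ℕ) (x y : X _⦋n⦌), q.app (.op ⦋n⦌) x = q.app (.op ⦋n⦌) y →
      ∃ k : ℕ, (τ.app (.op ⦋n⦌))^[k] x = y ∨ (τ.app (.op ⦋n⦌))^[k] y = x) :
    (SC τ q hτ).ShortExact := by
  apply HomologicalComplex.shortExact_of_degreewise_shortExact
  intro n
  refine ShortComplex.ShortExact.mk' ?_ ?_ ?_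
  · rw [ShortComplex.moduleCat_exact_iff]
    intro c hc
    exact chain_exact (hsurj n) (hfib n) c hc
  · rw [ModuleCat.mono_iff_injective]
    rw [injective_iff_map_eq_zero]
    intro a ha
    exact chain_injective (hinj n) (hfree n) a ha
  · rw [ModuleCat.epi_iff_surjective]
    intro c
    exact chain_surjective (hsurj n) c

end SES

/-! ### Homology in degree zero -/

section Zero

variable {X Y : SSet.{0}} (f : X ⟶ Y)

lemma eps_nat : SSet.homologyMap f R0 0 ≫ Y.homology₀ε R0 = X.homology₀ε R0 := by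
  have key : ∀ Z : SSet.{0}, IsIso ((Z.chainComplex R0).iCycles 0) := fun Z => inferInstance
  have hd : ∀ Z : SSet.{0}, (Z.chainComplex R0).d 0 0 = 0 := fun Z =>
    (Z.chainComplex R0).shape _ _ (by simp)
  let L : ∀ Z : SSet.{0}, (Z.chainComplex R0).X 0 ⟶ (Z.chainComplex R0).cycles 0 := fun Z =>
    (Z.chainComplex R0).liftCycles (𝟙 ((Z.chainComplex R0).X 0)) 0 (by simp) (by simp)
  have hL : ∀ Z : SSet.{0}, L Z = inv ((Z.chainComplex R0).iCycles 0) := by
    intro Z
    rw [← cancel_mono ((Z.chainComplex R0).iCycles 0)]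
    simp [L]
  have hepi : Epi (L X) := by rw [hL]; infer_instance
  rw [← cancel_epi ((X.chainComplex R0).homologyπ 0), ← cancel_epi (L X)]
  apply SSet.chainComplex_hom_ext
  intro x
  have h1 : X.ιChainComplex (R := R0) x ≫ L X =
      (X.chainComplex R0).liftCycles (X.ιChainComplex x) 0 (by simp) (by simp) := by
    rw [← cancel_mono ((X.chainComplex R0).iCycles 0)]
    simp [L]
  have h2 : X.ιChainComplex (R := R0) x ≫ L X ≫ (HomologicalComplex.cyclesMap (SSet.chainComplexMap f R0) 0) =
      (Y.chainComplex R0).liftCycles (Y.ιChainComplex (f.app _ x)) 0 (by simp) (by simp) := by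
    rw [← cancel_mono ((Y.chainComplex R0).iCycles 0)]
    simp [L]
  have h3 := SSet.liftCycles_ιChainComplex_homologyπ_homology₀ε (X := X) (R := R0) x
  have h4 := SSet.liftCycles_ιChainComplex_homologyπ_homology₀ε (X := Y) (R := R0) (f.app _ x)
  have hr : X.ιChainComplex (R := R0) x ≫ L X ≫
      HomologicalComplex.homologyπ (X.chainComplex R0) 0 ≫ X.homology₀ε R0 = 𝟙 R0 := by
    rw [← Category.assoc, h1]
    exact h3
  have hl : X.ιChainComplex (R := R0) x ≫ L X ≫
      HomologicalComplex.homologyπ (X.chainComplex R0) 0 ≫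
        SSet.homologyMap f R0 0 ≫ Y.homology₀ε R0 = 𝟙 R0 := by
    rw [HomologicalComplex.homologyπ_naturality_assoc]
    rw [← Category.assoc, ← Category.assoc, Category.assoc (X.ιChainComplex x), h2]
    exact h4
  rw [hl, hr]

end Zero

/-! ### The exact sequence in homology -/

section LES

variable {X Y : SSet.{0}} (τ : X ⟶ X) (q : X ⟶ Y) (hτ : τ ≫ q = q)

lemma homologyMap_SC_f (i : ℕ) :
    HomologicalComplex.homologyMap (SC τ q hτ).f i = SSet.homologyMap τ R0 i - 𝟙 (X.homology R0 i) := by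
  have h : HomologicalComplex.homologyMap
      (SSet.chainComplexMap τ R0 - 𝟙 (X.chainComplex R0)) i =
      SSet.homologyMap τ R0 i - 𝟙 (X.homology R0 i) := by
    rw [HomologicalComplex.homologyMap_sub, HomologicalComplex.homologyMap_id]
  exact h

lemma homologyMap_SC_f_apply (i : ℕ) (y : (X.homology R0 i : ModuleCat.{0} ℤ)) :
    (HomologicalComplex.homologyMap (SC τ q hτ).f i).hom y = (SSet.homologyMap τ R0 i).hom y - y := by
  rw [homologyMap_SC_f]
  rfl

variable (hS : (SC τ q hτ).ShortExact)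

include hS in
theorem les_one (x : (X.homology R0 1 : ModuleCat.{0} ℤ)) :
    (SSet.homologyMap q R0 1).hom x = 0 ↔
      ∃ y : (X.homology R0 1 : ModuleCat.{0} ℤ), x = (SSet.homologyMap τ R0 1).hom y - y := by
  have h := hS.homology_exact₂ 1
  rw [ShortComplex.moduleCat_exact_iff] at h
  constructor
  · intro hx
    obtain ⟨y, hy⟩ := h x hx
    refine ⟨y, ?_⟩
    rw [← homologyMap_SC_f_apply τ q hτ 1 y]
    exact hy.symm
  · rintro ⟨y, rfl⟩
    rw [map_sub, sub_eq_zero]
    have h2 : SSet.homologyMap τ R0 1 ≫ SSet.homologyMap q R0 1 = SSet.homologyMap q R0 1 := by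
      rw [← SSet.homologyMap_comp, hτ]
    exact congrArg (fun g => (ModuleCat.Hom.hom g) y) h2

include hS in
lemma les_dl : ∃ dl : Y.homology R0 1 ⟶ X.homology R0 0,
    (∀ z, dl.hom z = 0 → ∃ x : (X.homology R0 1 : ModuleCat.{0} ℤ),
      (SSet.homologyMap q R0 1).hom x = z) ∧
    (∀ w : (X.homology R0 0 : ModuleCat.{0} ℤ), (SSet.homologyMap τ R0 0).hom w - w = 0 →
      ∃ z, dl.hom z = w) ∧
    SSet.homologyMap q R0 1 ≫ dl = 0 := by
  have h3 := hS.homology_exact₃ 1 0 (by simp)
  have h1 := hS.homology_exact₁ 1 0 (by simp)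
  rw [ShortComplex.moduleCat_exact_iff] at h3 h1
  refine ⟨hS.δ 1 0 (by simp), h3, ?_, hS.comp_δ 1 0 (by simp)⟩
  intro w hw
  refine h1 w ?_
  rw [← homologyMap_SC_f_apply τ q hτ 0 w] at hw
  exact hw

include hS in
theorem les_delta [X.IsConnected] :
    ∃ d : (Y.homology R0 1 : ModuleCat.{0} ℤ) →+ ℤ, Function.Surjective d ∧
      ∀ z, d z = 0 ↔ ∃ x : (X.homology R0 1 : ModuleCat.{0} ℤ), (SSet.homologyMap q R0 1).hom x = z := by
  obtain ⟨dl, h3, h1, h5⟩ := les_dl τ q hτ hS
  have hiso : IsIso (X.homology₀ε R0) := inferInstance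
  have hε : SSet.homologyMap τ R0 0 = 𝟙 _ := by
    rw [← cancel_mono (X.homology₀ε R0), eps_nat, Category.id_comp]
  have hεinj : Function.Injective (X.homology₀ε R0).hom := by
    have : Mono (X.homology₀ε R0) := inferInstance
    exact (ModuleCat.mono_iff_injective _).mp this
  have hεsurj : Function.Surjective (X.homology₀ε R0).hom := by
    have : Epi (X.homology₀ε R0) := inferInstance
    exact (ModuleCat.epi_iff_surjective _).mp this
  refine ⟨(dl ≫ X.homology₀ε R0).hom.toAddMonoidHom, ?_, ?_⟩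
  · intro a
    obtain ⟨w, hw⟩ := hεsurj a
    obtain ⟨z, hz⟩ := h1 w (by
      rw [hε]
      exact sub_self w)
    refine ⟨z, ?_⟩
    rw [← hw, ← hz]
    rfl
  · intro z
    constructor
    · intro hz
      apply h3
      apply hεinj
      rw [map_zero]
      exact hz
    · rintro ⟨x, rfl⟩
      have h6 : dl.hom ((SSet.homologyMap q R0 1).hom x) = 0 :=
        congrArg (fun g => (ModuleCat.Hom.hom g) x) h5
      change (X.homology₀ε R0).hom (dl.hom ((SSet.homologyMap q R0 1).hom x)) = 0
      rw [h6, map_zero]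

end LES

section Lift

variable {M : Type} [TopologicalSpace M] (C : InfiniteCyclicCover M)

instance (n : ℕ) : LocallyPathConnectedSpace (stdSimplex ℝ (Fin (n + 1))) :=
  (convex_stdSimplex ℝ (Fin (n + 1))).locallyPathConnectedSpace

instance (n : ℕ) : ContractibleSpace (stdSimplex ℝ (Fin (n + 1))) :=
  (convex_stdSimplex ℝ (Fin (n + 1))).contractibleSpace (Set.nonempty_coe_sort.mp inferInstance)

/-- simplicial set of singular simplices -/
noncomputable abbrev Sing (X : Type) [TopologicalSpace X] : SSet.{0} := TopCat.toSSet.obj (TopCat.of X)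

/-- a singular simplex as a continuous map -/
noncomputable def ev {X : Type} [TopologicalSpace X] {n : ℕ} :
    (Sing X) _⦋n⦌ ≃ C(stdSimplex ℝ (Fin (n + 1)), X) :=
  TopCat.toSSetObjEquiv (TopCat.of X) (.op ⦋n⦌)

lemma ev_map {X Y : Type} [TopologicalSpace X] [TopologicalSpace Y] (f : C(X, Y)) {n : ℕ}
    (x : (Sing X) _⦋n⦌) :
    ev ((TopCat.toSSet.map (TopCat.ofHom f)).app (.op ⦋n⦌) x) = f.comp (ev x) := by
  rfl

/-- the deck transformation on singular simplices -/
noncomputable def tauS : Sing C.E ⟶ Sing C.E :=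
  TopCat.toSSet.map (TopCat.ofHom (C.t : C(C.E, C.E)))

/-- the projection on singular simplices -/
noncomputable def qS : Sing C.E ⟶ Sing M := TopCat.toSSet.map (TopCat.ofHom C.p)

lemma tau_q : tauS C ≫ qS C = qS C := by
  unfold tauS qS
  rw [← CategoryTheory.Functor.map_comp, ← TopCat.ofHom_comp]
  congr 2
  ext x
  exact C.deck x

lemma ev_tau {n : ℕ} (x : (Sing C.E) _⦋n⦌) :
    ev ((tauS C).app (.op ⦋n⦌) x) = (C.t : C(C.E, C.E)).comp (ev x) := ev_map _ x

lemma ev_q {n : ℕ} (x : (Sing C.E) _⦋n⦌) :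
    ev ((qS C).app (.op ⦋n⦌) x) = C.p.comp (ev x) := ev_map _ x

lemma ev_tau_iter {n : ℕ} (k : ℕ) (x : (Sing C.E) _⦋n⦌) (v : stdSimplex ℝ (Fin (n + 1))) :
    ev (((tauS C).app (.op ⦋n⦌))^[k] x) v = (C.t ^ k) (ev x v) := by
  induction k with
  | zero => rfl
  | succ k ih =>
    rw [Function.iterate_succ_apply', ev_tau, pow_succ']
    change C.t (ev (((tauS C).app (.op ⦋n⦌))^[k] x) v) = C.t ((C.t ^ k) (ev x v))
    rw [ih]

lemma tau_injective (n : ℕ) : Function.Injective ((tauS C).app (.op ⦋n⦌)) := by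
  intro x y h
  apply ev.injective
  have h2 := congrArg ev h
  rw [ev_tau, ev_tau] at h2
  ext v
  have h3 := congrArg (fun g => g v) h2
  exact C.t.injective h3

lemma p_zpow (n : ℤ) (x : C.E) : C.p ((C.t ^ n) x) = C.p x := by
  have hn : ∀ (k : ℕ) (x : C.E), C.p ((C.t ^ k) x) = C.p x := by
    intro k
    induction k with
    | zero => intro x; rfl
    | succ k ih =>
      intro x
      rw [pow_succ']
      change C.p (C.t ((C.t ^ k) x)) = C.p x
      rw [C.deck, ih]
  obtain ⟨k, rfl | rfl⟩ := n.eq_nat_or_neg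
  · rw [zpow_natCast]; exact hn k x
  · rw [zpow_neg, zpow_natCast]
    have := hn k ((C.t ^ k)⁻¹ x)
    rw [← this]
    have h2 : (C.t ^ k) ((C.t ^ k)⁻¹ x) = x := (C.t ^ k).apply_symm_apply x
    rw [h2]

/-- a vertex -/
noncomputable def v0 (n : ℕ) : stdSimplex ℝ (Fin (n + 1)) := Classical.arbitrary _

lemma tau_free (n k : ℕ) (x : (Sing C.E) _⦋n⦌) (hk : 0 < k) :
    ((tauS C).app (.op ⦋n⦌))^[k] x ≠ x := by
  intro h
  have h1 := ev_tau_iter C k x (v0 n)
  rw [h] at h1
  obtain ⟨m, -, hm⟩ := C.simplyTransitive (ev x (v0 n)) (ev x (v0 n)) rfl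
  have h2 := hm (k : ℤ) (by simp only [zpow_natCast]; exact h1.symm)
  have h3 := hm 0 (by simp only [zpow_zero]; rfl)
  omega

lemma q_surjective (n : ℕ) : Function.Surjective ((qS C).app (.op ⦋n⦌)) := by
  intro y
  obtain ⟨e0, he0⟩ := C.surj (ev y (v0 n))
  obtain ⟨F, ⟨-, hF⟩, -⟩ := C.isCovering.existsUnique_continuousMap_lifts (ev y) (v0 n) e0 he0
  refine ⟨ev.symm F, ?_⟩
  apply ev.injective
  rw [ev_q, Equiv.apply_symm_apply]
  ext v
  exact congrFun hF v

lemma q_fibre (n : ℕ) (x y : (Sing C.E) _⦋n⦌)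
    (h : (qS C).app (.op ⦋n⦌) x = (qS C).app (.op ⦋n⦌) y) :
    ∃ k : ℕ, ((tauS C).app (.op ⦋n⦌))^[k] x = y ∨ ((tauS C).app (.op ⦋n⦌))^[k] y = x := by
  have h1 := congrArg ev h
  rw [ev_q, ev_q] at h1
  have h2 : ∀ v, C.p (ev x v) = C.p (ev y v) := fun v => congrArg (fun g => g v) h1
  obtain ⟨m, hm, -⟩ := C.simplyTransitive _ _ (h2 (v0 n))
  have h3 : ∀ v, (C.t ^ m) (ev x v) = ev y v := by
    have := C.isCovering.eq_of_comp_eq (g₁ := fun v => (C.t ^ m) (ev x v)) (g₂ := fun v => ev y v)
      ((C.t ^ m).continuous.comp (ev x).continuous) (ev y).continuous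
      (by
        funext v
        simp only [Function.comp]
        rw [p_zpow, h2]) (v0 n) hm
    intro v
    exact congrFun this v
  obtain ⟨k, rfl | rfl⟩ := m.eq_nat_or_neg
  · refine ⟨k, Or.inl ?_⟩
    apply ev.injective
    ext v
    rw [ev_tau_iter, ← h3 v, zpow_natCast]
  · refine ⟨k, Or.inr ?_⟩
    apply ev.injective
    ext v
    rw [ev_tau_iter, ← h3 v, zpow_neg, zpow_natCast]
    exact (C.t ^ k).apply_symm_apply _

lemma cover_shortExact : (SC (tauS C) (qS C) (tau_q C)).ShortExact :=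
  shortExact _ _ _ (tau_injective C) (tau_free C) (q_surjective C) (q_fibre C)

end Lift

section Module

variable {M : Type} [TopologicalSpace M] (C : InfiniteCyclicCover M)

lemma T_smul (n : ℤ) (x : AlexanderModule C) :
    (T n : ℤ[T;T⁻¹]) • x = H1map ((C.t ^ n : C.E ≃ₜ C.E) : C(C.E, C.E)) x := by
  have h : laurentAction C (T n) = deckHom C (Multiplicative.ofAdd n) := by
    change AddMonoidAlgebra.lift ℤ (Module.End ℤ (H1 C.E)) ℤ (deckHom C)
      (AddMonoidAlgebra.single n 1) = _
    rw [AddMonoidAlgebra.lift_single, one_smul]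
  have h2 : (T n : ℤ[T;T⁻¹]) • x = laurentAction C (T n) x := laurentSMul_eq C (T n) x
  rw [h2, h]
  rfl

lemma sub_one_smul (x : AlexanderModule C) :
    (T 1 - 1 : ℤ[T;T⁻¹]) • x =
      (show AlexanderModule C from H1map (C.t : C(C.E, C.E)) (show H1 C.E from x)) - x := by
  rw [sub_smul, one_smul, T_smul, zpow_one]

theorem les_one' (x : AlexanderModule C) :
    H1map C.p x = 0 ↔ ∃ y : AlexanderModule C, x = (T 1 - 1 : ℤ[T;T⁻¹]) • y := by
  have h := les_one (tauS C) (qS C) (tau_q C) (cover_shortExact C) x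
  constructor
  · intro hx
    obtain ⟨y, hy⟩ := h.mp hx
    exact ⟨y, hy.trans (sub_one_smul C y).symm⟩
  · rintro ⟨y, hy⟩
    exact h.mpr ⟨y, hy.trans (sub_one_smul C y)⟩

instance : (Sing C.E).IsConnected :=
  (inferInstance : (TopCat.toSSet.obj (TopCat.of C.E)).IsConnected)

theorem les_delta' : ∃ d : H1 M →+ ℤ, Function.Surjective d ∧
    ∀ z, d z = 0 ↔ ∃ x : AlexanderModule C, H1map C.p x = z :=
  les_delta (tauS C) (qS C) (tau_q C) (cover_shortExact C)

end Module

theorem not_realizes (M : Type) [TopologicalSpace M] :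
    ¬ Realizes M (ℤ × (Fin 3 → ZMod 2)) delta := by
  rintro ⟨⟨f⟩, C, n, g, hg, hE, -⟩
  obtain ⟨d, hd, hd0⟩ := les_delta' C
  -- the composite `ℤ × V → ℤ`
  let d' : ℤ × (Fin 3 → ZMod 2) →+ ℤ := d.comp f.toAddMonoidHom
  have hd' : Function.Surjective d' := hd.comp f.surjective
  have h0 : ∀ v, d' (0, v) = 0 := by
    intro v
    have h2 : (2 : ℕ) • ((0 : ℤ), v) = 0 := by
      ext i
      · simp
      · have : (2 : ℕ) • v i = 0 := by
          rw [two_nsmul]
          exact CharTwo.add_self_eq_zero _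
        simpa using this
    have h3 := congrArg d' h2
    rw [map_nsmul, map_zero] at h3
    simpa using h3
  have h1 : ∀ a v, d' (a, v) = a * d' (1, 0) := by
    intro a v
    have : ((a, v) : ℤ × (Fin 3 → ZMod 2)) = a • ((1 : ℤ), (0 : Fin 3 → ZMod 2)) + (0, v) := by
      ext <;> simp
    rw [this, map_add, h0, map_zsmul]
    simp
  have h10 : d' (1, 0) ≠ 0 := by
    intro h
    obtain ⟨⟨a, v⟩, hav⟩ := hd' 1
    rw [h1, h, mul_zero] at hav
    exact zero_ne_one hav
  have hker : ∀ w, d' w = 0 → w.1 = 0 := by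
    rintro ⟨a, v⟩ hw
    rw [h1] at hw
    rcases mul_eq_zero.mp hw with h | h
    · exact h
    · exact absurd h h10
  let P : AlexanderModule C →+ H1 M := (H1map C.p).toAddMonoidHom
  have hP : ∀ x, (f.symm (P x)).1 = 0 := by
    intro x
    apply hker
    change d (f (f.symm (P x))) = 0
    rw [f.apply_symm_apply]
    exact (hd0 _).mpr ⟨x, rfl⟩
  let π : AlexanderModule C →+ (Fin 3 → ZMod 2) :=
    (AddMonoidHom.snd ℤ (Fin 3 → ZMod 2)).comp (f.symm.toAddMonoidHom.comp P)
  have hπapp : ∀ x, π x = (f.symm (P x)).2 := fun x => rfl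
  refine obstruction g hg π ?_ ?_ hE
  · intro v
    have h2 : d (f (0, v)) = 0 := h0 v
    obtain ⟨x, hx⟩ := (hd0 _).mp h2
    refine ⟨x, ?_⟩
    rw [hπapp]
    have : P x = f (0, v) := hx
    rw [this, f.symm_apply_apply]
  · intro x
    rw [← les_one' C x, hπapp]
    constructor
    · intro h
      have h2 : f.symm (P x) = 0 := Prod.ext (hP x) h
      have h3 := congrArg f h2
      rw [f.apply_symm_apply, map_zero] at h3
      exact h3
    · intro h
      have : P x = 0 := h
      rw [this, map_zero]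
      rfl

/-! ## Sanity checks for the definitions -/

lemma smul_mk_one {R : Type} [CommRing R] (I : Ideal R) (r : R) :
    r • Ideal.Quotient.mk I 1 = Ideal.Quotient.mk I r := by
  rw [Algebra.smul_def, Ideal.Quotient.algebraMap_eq, ← map_mul, mul_one]

/-- The order of a cyclic module `R / (a)` is `a`. -/
theorem isOrderOf_cyclic {R : Type} [CommRing R] (a : R) : IsOrderOf a (R ⧸ Ideal.span {a}) := by
  have h : elementaryIdeal (R := R) (fun _ : Fin 1 => Ideal.Quotient.mk (Ideal.span {a}) 1) =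
      Ideal.span {a} := by
    apply le_antisymm
    · unfold elementaryIdeal
      rw [Ideal.span_le]
      rintro d ⟨A, hA, rfl⟩
      have h1 := hA 0
      rw [Fin.sum_univ_one, smul_mk_one, Ideal.Quotient.eq_zero_iff_mem] at h1
      rw [Matrix.det_fin_one]
      exact h1
    · rw [Ideal.span_le, Set.singleton_subset_iff]
      apply Ideal.subset_span
      refine ⟨Matrix.of fun _ _ => a, ?_, ?_⟩
      · intro i
        rw [Fin.sum_univ_one, smul_mk_one, Ideal.Quotient.eq_zero_iff_mem]
        exact Ideal.mem_span_singleton_self a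
      · rw [Matrix.det_fin_one]
        rfl
  refine ⟨1, fun _ => Ideal.Quotient.mk (Ideal.span {a}) 1, ?_, ?_, ?_⟩
  · rw [eq_top_iff]
    rintro x -
    obtain ⟨r, rfl⟩ := Ideal.Quotient.mk_surjective x
    rw [← smul_mk_one (Ideal.span {a}) r]
    apply Submodule.smul_mem
    apply Submodule.subset_span
    exact Set.mem_range_self (0 : Fin 1)
  · rw [h]
  · intro d hd
    rw [h] at hd
    exact hd

/-- The universal covering of the circle is an infinite cyclic covering. -/
noncomputable def circleCover : InfiniteCyclicCover (AddCircle (1 : ℝ)) where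
  E := ℝ
  topE := inferInstance
  connE := inferInstance
  p := ⟨fun x => (x : AddCircle (1 : ℝ)), AddCircle.continuous_mk' 1⟩
  isCovering := AddCircle.isCoveringMap_coe 1
  surj := QuotientAddGroup.mk_surjective
  t := Homeomorph.addRight 1
  deck x := by
    change ((x + 1 : ℝ) : AddCircle (1 : ℝ)) = (x : AddCircle (1 : ℝ))
    simp
  simplyTransitive x y h := by
    have key : ∀ (n : ℤ) (x : ℝ), ((Homeomorph.addRight (1 : ℝ)) ^ n) x = x + n := by
      have hn : ∀ (k : ℕ) (x : ℝ), ((Homeomorph.addRight (1 : ℝ)) ^ k) x = x + k := by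
        intro k
        induction k with
        | zero => intro x; simp
        | succ k ih =>
          intro x
          rw [pow_succ']
          change ((Homeomorph.addRight (1 : ℝ)) ^ k) x + 1 = _
          rw [ih]
          push_cast
          ring
      intro n x
      obtain ⟨k, rfl | rfl⟩ := n.eq_nat_or_neg
      · rw [zpow_natCast, hn]
        simp
      · rw [zpow_neg, zpow_natCast]
        have h1 : ((Homeomorph.addRight (1 : ℝ)) ^ k) (((Homeomorph.addRight (1 : ℝ)) ^ k)⁻¹ x) = x :=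
          ((Homeomorph.addRight (1 : ℝ)) ^ k).apply_symm_apply x
        rw [hn] at h1
        push_cast
        linarith
    have h2 : (x : AddCircle (1 : ℝ)) = (y : AddCircle (1 : ℝ)) := h
    rw [eq_comm, ← sub_eq_zero, ← AddCircle.coe_sub, AddCircle.coe_eq_zero_iff] at h2
    obtain ⟨n, hn⟩ := h2
    refine ⟨n, ?_, ?_⟩
    · simp only [key]
      simp at hn
      linarith
    · intro m hm
      simp only [key] at hm
      simp at hn
      have : (m : ℝ) = n := by linarith
      exact_mod_cast this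

/-! ## The main theorem -/

lemma torsion_eq : AddCommGroup.torsion (ℤ × (Fin 3 → ZMod 2)) =
    (AddMonoidHom.fst ℤ (Fin 3 → ZMod 2)).ker := by
  ext ⟨a, v⟩
  rw [AddMonoidHom.mem_ker]
  change IsOfFinAddOrder (a, v) ↔ a = 0
  rw [isOfFinAddOrder_iff_nsmul_eq_zero]
  constructor
  · rintro ⟨n, hn, h⟩
    have h1 : n • a = 0 := congrArg Prod.fst h
    rw [nsmul_eq_mul] at h1
    rcases mul_eq_zero.mp h1 with h2 | h2
    · have : n = 0 := by exact_mod_cast h2
      omega
    · exact h2
  · rintro rfl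
    refine ⟨2, by norm_num, ?_⟩
    ext i
    · simp
    · have : (2 : ℕ) • v i = 0 := by
        rw [two_nsmul]
        exact CharTwo.add_self_eq_zero _
      simpa using this

lemma card_torsion : Nat.card (AddCommGroup.torsion (ℤ × (Fin 3 → ZMod 2))) = 8 := by
  rw [torsion_eq]
  let f : (AddMonoidHom.fst ℤ (Fin 3 → ZMod 2)).ker ≃ (Fin 3 → ZMod 2) :=
    { toFun := fun x => x.1.2
      invFun := fun v => ⟨(0, v), rfl⟩
      left_inv := by
        rintro ⟨⟨a, v⟩, h⟩
        have : a = 0 := h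
        subst this
        rfl
      right_inv := fun v => rfl }
  rw [Nat.card_congr f]
  simp

lemma conditions_delta : Conditions (ℤ × (Fin 3 → ZMod 2)) delta := by
  refine ⟨⟨2, ⟨1, rfl⟩, ?_⟩, Or.inl ?_⟩
  · unfold delta
    have h6 : LaurentPolynomial.invert (6 : ℤ[T;T⁻¹]) = 6 := map_ofNat _ 6
    rw [map_add, map_add, map_mul, invert_T, invert_T, map_one, h6]
    have h1 : (T 2 * T (-2) : ℤ[T;T⁻¹]) = 1 := by rw [← T_add]; simp
    have h2 : (T 2 * T (-1) : ℤ[T;T⁻¹]) = T 1 := by rw [← T_add]; norm_num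
    linear_combination -h1 - 6 * h2
  · rw [card_torsion]
    exact aug_delta

lemma rankOne : IsRankOneFG (ℤ × (Fin 3 → ZMod 2)) := by
  refine ⟨inferInstance, ?_⟩
  rw [torsion_eq]
  exact ⟨QuotientAddGroup.quotientKerEquivOfSurjective (AddMonoidHom.fst ℤ (Fin 3 → ZMod 2))
    Prod.fst_surjective⟩

/-- **Main theorem.** There are a finitely generated abelian group `H` of rank one and a Laurent
polynomial `Δ` satisfying both conditions such that no closed connected 3-manifold `M`
(orientable or not) realizes `(H, Δ)`. -/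
theorem result : ∃ (H : Type) (_ : AddCommGroup H) (Δ : ℤ[T;T⁻¹]),
    IsRankOneFG H ∧ Conditions H Δ ∧
      ∀ (M : Type) [TopologicalSpace M] [T2Space M] [CompactSpace M] [ConnectedSpace M]
        [ChartedSpace (EuclideanSpace ℝ (Fin 3)) M], ¬ Realizes M H Δ :=
  ⟨ℤ × (Fin 3 → ZMod 2), inferInstance, delta, rankOne, conditions_delta,
    fun M _ _ _ _ _ => not_realizes M⟩

end Pool.Agent.Results.MP_31b0c0_gt.NotSufficient
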